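import Mathlib
import Pool.Agent.TH455.ExBMain
import Pool.Agent.TH455.C4
import Pool.Agent.TH455.Ex15
import Pool.Agent.TH455.PlanarSparse

set_option autoImplicit false

/-!
# Packings of correspondence covers of finite and infinite sparse graphs, for all `k ≥ 4`
-/

namespace Pool.Agent.Y408.LP

open Finset Pool.Agent.TH455
open Pool.Agent.H239R2.Planar (HasStraightLineDrawing)

/-- Every system of partial matchings, along the edges of `G`, between `k`-element colour sets
has a packing: `k` choices of colours, pairwise different at every vertex, without conflicts. -/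
def MatchPack {V : Type} (G : SimpleGraph V) (k : ℕ) : Prop :=
  ∀ X : V → V → Fin k → Fin k → Prop,
    (∀ u v i j, X u v i j → X v u j i) →
    (∀ u v, G.Adj u v → ∀ i j j', X u v i j → X u v i j' → j = j') →
    ∃ π : V → Fin k → Fin k, (∀ v, Function.Injective (π v)) ∧
      ∀ u v, G.Adj u v → ∀ t, ¬ X u v (π u t) (π v t)

theorem sparse_sub {V : Type} {G : SimpleGraph V} (h : Sparse (gi G)) (s : Finset V) :
    Sparse (gi (G.comap (Subtype.val : {x // x ∈ s} → V))) := by
  classical
  intro W hW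
  have h1 := h (W.map (Function.Embedding.subtype _)) (hW.map)
  have h2 : I2 (gi (G.comap (Subtype.val : {x // x ∈ s} → V))) W =
      I2 (gi G) (W.map (Function.Embedding.subtype _)) := by
    unfold I2
    rw [Finset.sum_map]
    refine Finset.sum_congr rfl fun a _ => ?_
    rw [Finset.sum_map]
    rfl
  rw [Finset.card_map] at h1
  rw [h2]
  exact h1

theorem matchPack_four {V : Type} {G : SimpleGraph V} (h : Sparse (gi G)) : MatchPack G 4 := by
  classical
  intro X hs hm
  have key : ∀ s : Finset V, ∃ π : {x // x ∈ s} → Fin 4 → Fin 4,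
      (∀ v, Function.Injective (π v)) ∧
      ∀ u v : {x // x ∈ s}, G.Adj u.1 v.1 → ∀ t, ¬ X u.1 v.1 (π u t) (π v t) := by
    intro s
    exact pack_sparse (G.comap (Subtype.val : {x // x ∈ s} → V)) (sparse_sub h s)
      (fun u v i j => X u.1 v.1 i j) (fun u v i j h => hs _ _ _ _ h)
      (fun u v huv i j j' h h' => hm _ _ huv _ _ _ h h')
  choose g hg1 hg2 using key
  obtain ⟨χ, hχ⟩ := Finset.rado_selection_subtype (β := fun _ : V => Fin 4 → Fin 4) g
  refine ⟨χ, ?_, ?_⟩
  · intro v
    obtain ⟨t, hst, ht⟩ := hχ {v}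
    have h1 := ht ⟨v, by simp⟩
    have h2 : χ v = g t ⟨v, hst (by simp)⟩ := h1
    rw [h2]
    exact hg1 t _
  · intro u v huv t hX
    obtain ⟨T, hst, hT⟩ := hχ {u, v}
    have hu : χ u = g T ⟨u, hst (by simp)⟩ := hT ⟨u, by simp⟩
    have hv : χ v = g T ⟨v, hst (by simp)⟩ := hT ⟨v, by simp⟩
    rw [hu, hv] at hX
    exact hg2 T ⟨u, hst (by simp)⟩ ⟨v, hst (by simp)⟩ huv t hX

theorem matchPack_succ {V : Type} {G : SimpleGraph V} {k : ℕ} (hk : 0 < k) (h : MatchPack G k) :
    MatchPack G (k + 1) := by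
  classical
  intro X hs hm
  obtain ⟨π0, -, h0⟩ := h (fun u v i j => X u v i.castSucc j.castSucc)
    (fun u v i j h => hs _ _ _ _ h)
    (fun u v huv i j j' a b => Fin.castSucc_injective _ (hm u v huv _ _ _ a b))
  obtain ⟨c, hc⟩ : ∃ c : V → Fin (k + 1), ∀ u v, G.Adj u v → ¬ X u v (c u) (c v) :=
    ⟨fun v => (π0 v ⟨0, hk⟩).castSucc, fun u v huv => h0 u v huv ⟨0, hk⟩⟩
  obtain ⟨π1, i1, h1⟩ := h (fun u v i j => X u v ((c u).succAbove i) ((c v).succAbove j))
    (fun u v i j h => hs _ _ _ _ h)
    (fun u v huv i j j' a b => Fin.succAbove_right_injective (hm u v huv _ _ _ a b))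
  refine ⟨fun v => Fin.cons (c v) (fun t => (c v).succAbove (π1 v t)), ?_, ?_⟩
  · intro v
    rw [Fin.cons_injective_iff]
    refine ⟨?_, ?_⟩
    · rintro ⟨t, ht⟩
      exact Fin.succAbove_ne _ _ ht
    · exact Fin.succAbove_right_injective.comp (i1 v)
  · intro u v huv t
    refine Fin.cases ?_ (fun t => ?_) t
    · simpa using hc u v huv
    · simpa using h1 u v huv t

theorem matchPack_all {V : Type} {G : SimpleGraph V} (h : Sparse (gi G)) (k : ℕ) (hk : 4 ≤ k) :
    MatchPack G k := by
  induction k, hk using Nat.le_induction with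
  | base => exact matchPack_four h
  | succ k hk ih => exact matchPack_succ (by omega) ih

theorem list_of_match {V α : Type} {G : SimpleGraph V} {k : ℕ} (h : MatchPack G k)
    (L : V → Finset α) (hL : ∀ v, (L v).card = k) :
    ∃ c : Fin k → V → α, (∀ i v, c i v ∈ L v) ∧ (∀ i u v, G.Adj u v → c i u ≠ c i v) ∧
      (∀ v i j, i ≠ j → c i v ≠ c j v) := by
  classical
  let e : ∀ v, Fin k ≃ L v := fun v => ((L v).equivFinOfCardEq (hL v)).symm
  obtain ⟨π, h1, h2⟩ := h (fun u v i j => (e u i : α) = (e v j : α))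
    (fun u v i j h => h.symm)
    (fun u v _ i j j' h h' => (e v).injective (Subtype.ext (h.symm.trans h')))
  refine ⟨fun i v => (e v (π v i) : α), fun i v => (e v (π v i)).2, ?_, ?_⟩
  · intro i u v huv h
    exact h2 u v huv i h
  · intro v i j hij h
    exact hij (h1 v ((e v).injective (Subtype.ext h)))

theorem cover_of_match {V : Type} {G : SimpleGraph V} {k : ℕ} (hk : 0 < k) (h : MatchPack G k)
    (C : Cover G k) : C.HasPacking := by
  classical
  have e : ∀ v, Fin k ≃ {x // C.p x = v} := fun v =>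
    ((Nat.equivFinOfCardPos (by rw [C.card_fiber v]; omega)).trans
      (finCongr (C.card_fiber v))).symm
  have hpe : ∀ v i, C.p (e v i).1 = v := fun v i => (e v i).2
  obtain ⟨π, h1, h2⟩ := h (fun u v i j => C.H.Adj (e u i).1 (e v j).1)
    (fun u v i j h => h.symm)
    (by
      intro u v huv i j j' h h'
      obtain ⟨y, _, hy⟩ := C.matching (e u i).1 v (by rw [hpe]; exact huv)
      have a := hy _ ⟨hpe v j, h⟩
      have b := hy _ ⟨hpe v j', h'⟩
      exact (e v).injective (Subtype.ext (a.trans b.symm)))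
  refine ⟨fun t => {x | ∃ v, x = (e v (π v t)).1}, ?_, ?_⟩
  · intro t
    refine ⟨?_, ?_⟩
    · rintro x ⟨u, rfl⟩ y ⟨v, rfl⟩ hadj
      rcases C.only _ _ hadj with h | h
      · rw [hpe, hpe] at h
        subst h
        exact C.H.loopless.irrefl _ hadj
      · rw [hpe, hpe] at h
        exact h2 u v h t hadj
    · intro v
      refine ⟨(e v (π v t)).1, ⟨hpe _ _, v, rfl⟩, ?_⟩
      rintro y ⟨hy, u, rfl⟩
      rw [hpe] at hy
      subst hy
      rfl
  · intro s t hst
    rw [Set.disjoint_left]
    rintro x ⟨u, rfl⟩ ⟨v, hv⟩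
    have huv : u = v := by
      have := congrArg C.p hv
      rw [hpe, hpe] at this
      exact this
    subst huv
    exact hst (h1 u ((e u).injective (Subtype.ext hv)))

/-! ### sparsity -/

theorem sparse_of_induce {V : Type} {G : SimpleGraph V}
    (h : ∀ W : Finset V, Sparse (gi (G.induce (W : Set V)))) : Sparse (gi G) := by
  classical
  intro W hW
  obtain ⟨w, hw⟩ := hW
  have h1 := h W (univ : Finset (W : Set V)) ⟨⟨w, hw⟩, mem_univ _⟩
  have h2 : I2 (gi (G.induce (W : Set V))) (univ : Finset (W : Set V)) = I2 (gi G) W := by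
    unfold I2
    rw [← Finset.sum_coe_sort W]
    refine Finset.sum_congr rfl fun a _ => ?_
    rw [← Finset.sum_coe_sort W]
    rfl
  have h3 : (univ : Finset (W : Set V)).card = W.card := by
    rw [Finset.card_univ, ← Nat.card_eq_fintype_card, Nat.card_coe_set_eq, Set.ncard_coe_finset]
  rw [h2, h3] at h1
  exact h1

theorem drawing_induce {V : Type} {G : SimpleGraph V} (h : HasStraightLineDrawing G)
    (S : Set V) : HasStraightLineDrawing (G.induce S) := by
  obtain ⟨p, h1, h2, h3⟩ := h
  refine ⟨fun x => p x.1, fun x y hxy => Subtype.ext (h1 hxy), ?_, ?_⟩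
  · intro u v w huv hw
    rcases h2 u.1 v.1 w.1 huv hw with h | h
    · exact Or.inl (Subtype.ext h)
    · exact Or.inr (Subtype.ext h)
  · intro u v x y huv hxy hne q hq hq'
    obtain ⟨w, hw1, hw2, hw3⟩ := h3 u.1 v.1 x.1 y.1 huv hxy (by
      intro h
      apply hne
      rw [Sym2.eq_iff] at h ⊢
      rcases h with ⟨a, b⟩ | ⟨a, b⟩
      · exact Or.inl ⟨Subtype.ext a, Subtype.ext b⟩
      · exact Or.inr ⟨Subtype.ext a, Subtype.ext b⟩) q hq hq'
    have hwS : w ∈ S := by
      rcases hw1 with h | h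
      · rw [h]; exact u.2
      · rw [h]; exact v.2
    refine ⟨⟨w, hwS⟩, ?_, ?_, hw3⟩
    · rcases hw1 with h | h
      · exact Or.inl (Subtype.ext h)
      · exact Or.inr (Subtype.ext h)
    · rcases hw2 with h | h
      · exact Or.inl (Subtype.ext h)
      · exact Or.inr (Subtype.ext h)

theorem set_eq {V : Type} (G : SimpleGraph V) (W : Finset V) :
    {e ∈ G.edgeSet | ∀ v ∈ e, v ∈ W} = (eIn G W : Set (Sym2 V)) := by
  classical
  ext e
  induction e using Sym2.ind with
  | _ a b =>
    simp [eIn, and_comm]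

theorem sparse_of_spans {V : Type} {G : SimpleGraph V}
    (h : ∀ W : Finset V, W.Nonempty → {e ∈ G.edgeSet | ∀ v ∈ e, v ∈ W}.ncard + 2 ≤ 2 * W.card) :
    Sparse (gi G) := by
  intro W hW
  have h1 := h W hW
  rw [set_eq, Set.ncard_coe_finset] at h1
  rw [I2_eq_edges]
  omega

theorem sparse_of_planar {V : Type} {G : SimpleGraph V}
    (h : ∀ W : Finset V, HasStraightLineDrawing (G.induce (W : Set V)) ∨
      NoKMinor (G.induce (W : Set V))) (hfree : G.CliqueFree 3) : Sparse (gi G) := by
  apply sparse_of_induce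
  intro W
  exact planar_free_sparse (Or.inr (h W)) (hfree.comap ⟨(SimpleGraph.Embedding.induce (W : Set V)).toCopy⟩)

end Pool.Agent.Y408.LP
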